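import Pool.Agent.MP_d1f1f3_co.H30.Select

/-!
The four-colouring of a connected bipartite graph.
-/

namespace Pool.Agent.MP_d1f1f3_co.H30

open Finset

variable {V : Type*}

/-- Number of elements of `S` where `f` takes the value `α`. -/
def cnt (S : Finset V) (f : V → ℕ) (α : ℕ) : ℕ := (S.filter fun w => f w = α).card

lemma cnt_four (S : Finset V) (f : V → ℕ) (hf : ∀ w ∈ S, 1 ≤ f w ∧ f w ≤ 4) :
    S.card = cnt S f 1 + cnt S f 2 + cnt S f 3 + cnt S f 4 ∧
      ∑ w ∈ S, f w = cnt S f 1 + 2 * cnt S f 2 + 3 * cnt S f 3 + 4 * cnt S f 4 ∧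
      ∀ α, α ≠ 1 → α ≠ 2 → α ≠ 3 → α ≠ 4 → cnt S f α = 0 := by
  refine ⟨?_, ?_, fun α h1 h2 h3 h4 => ?_⟩
  · simp only [cnt, card_filter, ← sum_add_distrib]
    rw [card_eq_sum_ones]
    refine sum_congr rfl fun w hw => ?_
    have := hf w hw
    split_ifs <;> omega
  · simp only [cnt, card_filter, mul_sum, ← sum_add_distrib]
    refine sum_congr rfl fun w hw => ?_
    have := hf w hw
    split_ifs <;> omega
  · refine card_eq_zero.2 (filter_eq_empty_iff.2 fun w hw h => ?_)
    have := hf w hw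
    omega

variable [Fintype V] [DecidableEq V] (G : SimpleGraph V) [DecidableRel G.Adj]

/-- A colouring of the edges missing `v`, balanced on odd and on even colours, with odd sums
exactly on `T`. -/
def Good (v : V) (T : Finset V) (g : V → V → ℕ) : Prop :=
  (∀ u w, g u w = g w u) ∧ (∀ u w, 1 ≤ g u w ∧ g u w ≤ 4) ∧ ∀ u, u ≠ v →
    let n := cnt ((G.neighborFinset u).erase v) (g u)
    n 1 ≤ n 3 + 1 ∧ n 3 ≤ n 1 + 1 ∧ n 2 ≤ n 4 + 1 ∧ n 4 ≤ n 2 + 1 ∧
      (n 1 + n 3) % 2 = if u ∈ T then 1 else 0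

/-- Exchange of the colours one and three. -/
def flip13 (g : V → V → ℕ) (u w : V) : ℕ := if g u w = 1 then 3 else if g u w = 3 then 1 else g u w

omit [Fintype V] [DecidableEq V] in
lemma cnt_flip (S : Finset V) (g : V → V → ℕ) (u : V) :
    cnt S (flip13 g u) 1 = cnt S (g u) 3 ∧ cnt S (flip13 g u) 2 = cnt S (g u) 2 ∧
      cnt S (flip13 g u) 3 = cnt S (g u) 1 ∧ cnt S (flip13 g u) 4 = cnt S (g u) 4 := by
  refine ⟨?_, ?_, ?_, ?_⟩ <;>
  · unfold cnt flip13
    congr 1
    refine filter_congr fun w _ => ?_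
    split_ifs <;> omega

lemma Good.flip {v : V} {T : Finset V} {g : V → V → ℕ} (h : Good G v T g) :
    Good G v T (flip13 g) := by
  obtain ⟨h1, h2, h3⟩ := h
  refine ⟨fun u w => by simp only [flip13, h1 u w], fun u w => ?_, fun u hu => ?_⟩
  · have := h2 u w
    unfold flip13
    split_ifs <;> omega
  · have h4 := h3 u hu
    obtain ⟨e1, e2, e3, e4⟩ := cnt_flip ((G.neighborFinset u).erase v) g u
    dsimp only at h4 ⊢
    rw [e1, e2, e3, e4]
    omega

lemma exists_good {col : V → Bool} (hcol : ∀ u w, G.Adj u w → col u ≠ col w) {v r : V}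
    (hr : ∀ u, u ≠ v → ∃ p : G.Walk u r, ∀ w ∈ p.support, w ≠ v) (T : Finset V) (hv : v ∉ T)
    (he : Even T.card) : ∃ g, Good G v T g := by
  obtain ⟨x, x1, x2, x3⟩ := parity_join G {v} r hr T (fun u hu h => hv (h ▸ hu)) he
  obtain ⟨y, y1, y2, y3⟩ := balanced G hcol (fun u w => u ≠ v ∧ w ≠ v ∧ x u w = 1)
    fun u w h => ⟨h.2.1, h.1, x1 u w ▸ h.2.2⟩
  obtain ⟨z, z1, z2, z3⟩ := balanced G hcol (fun u w => u ≠ v ∧ w ≠ v ∧ x u w ≠ 1)
    fun u w h => ⟨h.2.1, h.1, x1 u w ▸ h.2.2⟩
  refine ⟨fun u w => if x u w = 1 then (if y u w = 1 then 3 else 1) else if z u w = 1 then 4 else 2,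
    fun u w => by simp only [x1 u w, y1 u w, z1 u w], fun u w => ?_, fun u hu => ?_⟩
  · dsimp only
    split_ifs <;> omega
  intro n
  have a1 : ∑ w ∈ G.neighborFinset u with u ≠ v ∧ w ≠ v ∧ x u w = 1, y u w = (n 3 : ℤ) - n 1 := by
    simp only [n, cnt, card_filter, Nat.cast_sum, ← sum_sub_distrib]
    rw [sum_filter, ← sum_erase (a := v) _ (by simp)]
    refine sum_congr rfl fun w hw => ?_
    rcases y2 u w with h | h <;> by_cases h' : x u w = 1 <;> by_cases h'' : z u w = 1 <;>
      simp [h, h', h'', hu, (mem_erase.1 hw).1]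
  have a2 : ∑ w ∈ G.neighborFinset u with u ≠ v ∧ w ≠ v ∧ x u w ≠ 1, z u w = (n 4 : ℤ) - n 2 := by
    simp only [n, cnt, card_filter, Nat.cast_sum, ← sum_sub_distrib]
    rw [sum_filter, ← sum_erase (a := v) _ (by simp)]
    refine sum_congr rfl fun w hw => ?_
    rcases z2 u w with h | h <;> by_cases h' : x u w = 1 <;> by_cases h'' : y u w = 1 <;>
      simp [h, h', h'', hu, (mem_erase.1 hw).1]
  have a3 : ((n 1 + n 3 : ℕ) : ZMod 2) = if u ∈ T then 1 else 0 := by
    rw [← x3 u, ← sum_erase (a := v) _ (by rw [x1]; exact x2 v u rfl)]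
    simp only [n, cnt, card_filter, Nat.cast_add, Nat.cast_sum, ← sum_add_distrib]
    refine sum_congr rfl fun w _ => ?_
    have : ∀ t : ZMod 2, t ≠ 1 → t = 0 := by decide
    by_cases h' : x u w = 1 <;> by_cases h : y u w = 1 <;> by_cases h'' : z u w = 1 <;>
      simp [h, h', h'', this]
  have b1 := abs_le.1 (a1 ▸ y3 u)
  have b2 := abs_le.1 (a2 ▸ z3 u)
  refine ⟨by omega, by omega, by omega, by omega, ?_⟩
  split_ifs at a3 ⊢
  · exact Nat.odd_iff.1 (ZMod.natCast_eq_one_iff_odd.1 a3)
  · exact Nat.even_iff.1 (ZMod.natCast_eq_zero_iff_even.1 a3)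

/-- The conclusion: a quasi-majority sum distinguishing colouring with four colours. -/
def Fine : Prop :=
  ∃ c : Sym2 V → ℕ, (∀ e ∈ G.edgeSet, 1 ≤ c e ∧ c e ≤ 4) ∧
    (∀ u w, G.Adj u w →
      ∑ z ∈ G.neighborFinset u, c s(u, z) ≠ ∑ z ∈ G.neighborFinset w, c s(w, z)) ∧
    ∀ u α, ((G.neighborFinset u).filter fun z => c s(u, z) = α).card ≤ (G.degree u + 1) / 2

lemma build {col : V → Bool} (hcol : ∀ u w, G.Adj u w → col u ≠ col w) {v : V} {K H : Finset V}
    (hK : K ⊆ G.neighborFinset v) (hH : H ⊆ G.neighborFinset v) {g : V → V → ℕ}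
    (hg : Good G v ((univ.filter fun u => col u ≠ col v) \ K) g)
    (m1 : (K ∩ H).card ≤ (G.degree v + 1) / 2) (m2 : (K \ H).card ≤ (G.degree v + 1) / 2)
    (m3 : (H \ K).card ≤ (G.degree v + 1) / 2)
    (m4 : ((G.neighborFinset v \ K) \ H).card ≤ (G.degree v + 1) / 2)
    (hne : ∀ u ∈ G.neighborFinset v, 2 * G.degree v + 2 * (H.erase u).card ≠
      K.card + (if u ∈ K then 1 else 2) + ∑ w ∈ (G.neighborFinset u).erase v, g u w) :
    Fine G := by
  obtain ⟨g1, g2, g3⟩ := hg
  let e : V → ℕ := fun w => (if w ∈ K then 1 else 2) + if w ∈ H then 2 else 0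
  let c : V → V → ℕ := fun u w => if u = v then e w else if w = v then e u else g u w
  have c1 : ∀ u w, c u w = c w u := fun u w => by
    by_cases hu : u = v <;> by_cases hw : w = v <;> simp [c, hu, hw, g1 u w]
  have c2 : ∀ u w, 1 ≤ c u w ∧ c u w ≤ 4 := fun u w => by
    have := g2 u w
    simp only [c, e]
    split_ifs <;> omega
  have sv : ∑ z ∈ G.neighborFinset v, c v z + K.card = 2 * G.degree v + 2 * H.card := by
    rw [← inter_eq_right.2 hK, ← inter_eq_right.2 hH, ← G.card_neighborFinset_eq_degree,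
      ← filter_mem_eq_inter, ← filter_mem_eq_inter, card_eq_sum_ones (G.neighborFinset v)]
    simp only [card_filter, mul_sum, ← sum_add_distrib]
    refine sum_congr rfl fun w _ => ?_
    simp only [c, e, if_true]
    split_ifs <;> omega
  have su : ∀ u, u ≠ v → ∑ z ∈ G.neighborFinset u, c u z =
      (if G.Adj u v then e u else 0) + ∑ w ∈ (G.neighborFinset u).erase v, g u w := by
    intro u hu
    rw [← sum_congr rfl fun w (hw : w ∈ (G.neighborFinset u).erase v) =>
      show c u w = g u w by simp [c, hu, (mem_erase.1 hw).1]]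
    split_ifs with h
    · rw [← add_sum_erase _ _ ((G.mem_neighborFinset u v).2 h)]
      simp [c, hu]
    · rw [erase_eq_of_notMem (by simpa using h), zero_add]
  have cu : ∀ u α, u ≠ v → cnt (G.neighborFinset u) (c u) α =
      (if G.Adj u v ∧ e u = α then 1 else 0) + cnt ((G.neighborFinset u).erase v) (g u) α := by
    intro u α hu
    simp only [cnt, card_filter]
    rw [← sum_congr rfl fun w (hw : w ∈ (G.neighborFinset u).erase v) =>
      show (if c u w = α then 1 else 0) = if g u w = α then 1 else 0 by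
        simp [c, hu, (mem_erase.1 hw).1]]
    by_cases h : G.Adj u v
    · rw [← add_sum_erase _ _ ((G.mem_neighborFinset u v).2 h)]
      simp [c, hu, h]
    · rw [erase_eq_of_notMem (by simpa using h)]
      simp [h]
  have par : ∀ u, u ≠ v → (∑ z ∈ G.neighborFinset u, c u z) % 2 = if col u = col v then 0 else 1 := by
    intro u hu
    have h1 := (g3 u hu).2.2.2.2
    have h2 := (cnt_four ((G.neighborFinset u).erase v) (g u) fun w _ => g2 u w).2.1
    rw [su u hu, h2]
    have h3 : u ∈ K → G.Adj u v := fun h => ((G.mem_neighborFinset v u).1 (hK h)).symm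
    have h4 := hcol u v
    simp only [mem_sdiff, mem_filter, mem_univ, true_and] at h1
    simp only [e]
    by_cases a1 : u ∈ K <;> by_cases a2 : G.Adj u v <;> by_cases a3 : col u = col v <;>
      simp only [a1, a2, a3, forall_const, not_true_eq_false, ne_eq, not_false_eq_true, and_self,
        and_true, and_false, if_true, if_false] at h1 h3 h4 ⊢ <;> (try split_ifs) <;> omega
  have hv : ∀ u, G.Adj v u → ∑ z ∈ G.neighborFinset v, c v z ≠ ∑ z ∈ G.neighborFinset u, c u z := by
    intro u hu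
    have h1 := hne u ((G.mem_neighborFinset v u).2 hu)
    rw [su u hu.ne', if_pos hu.symm]
    simp only [e]
    by_cases h : u ∈ H
    · have := card_erase_add_one h
      rw [if_pos h]
      omega
    · rw [erase_eq_of_notMem h] at h1
      rw [if_neg h]
      omega
  refine ⟨Sym2.lift ⟨c, c1⟩, fun z => Sym2.ind (fun a b _ => c2 a b) z, fun u w h => ?_,
    fun u α => ?_⟩
  · simp only [Sym2.lift_mk]
    by_cases hu : u = v
    · subst hu; exact hv w h
    by_cases hw : w = v
    · subst hw; exact (hv u h.symm).symm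
    intro h'
    have h1 := par u hu
    have h2 := par w hw
    have h3 := hcol u w h
    rw [h', h2] at h1
    revert h1 h3
    cases col u <;> cases col w <;> cases col v <;> simp
  simp only [Sym2.lift_mk]
  change cnt (G.neighborFinset u) (c u) α ≤ _
  by_cases hu : u = v
  · subst hu
    have : ∀ S : Finset V, (∀ w ∈ G.neighborFinset u, e w = α → w ∈ S) →
        S.card ≤ (G.degree u + 1) / 2 → cnt (G.neighborFinset u) (c u) α ≤ (G.degree u + 1) / 2 :=
      fun S hS h => (card_le_card fun w hw => by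
        rw [mem_filter] at hw
        exact hS w hw.1 (by simpa [c] using hw.2)).trans h
    by_cases h1 : α = 1
    · refine this _ (fun w _ h => ?_) m2
      simp only [e] at h
      rw [mem_sdiff]
      split_ifs at h <;> first | omega | tauto
    by_cases h2 : α = 2
    · refine this _ (fun w hw h => ?_) m4
      simp only [e] at h
      rw [mem_sdiff, mem_sdiff]
      split_ifs at h <;> first | omega | tauto
    by_cases h3 : α = 3
    · refine this _ (fun w _ h => ?_) m1
      simp only [e] at h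
      rw [mem_inter]
      split_ifs at h <;> first | omega | tauto
    · refine this _ (fun w _ h => ?_) m3
      simp only [e] at h
      rw [mem_sdiff]
      split_ifs at h <;> first | omega | tauto
  rw [cu u α hu]
  obtain ⟨h1, h2, h3, h4, h5⟩ := g3 u hu
  obtain ⟨h6, -, h7⟩ := cnt_four ((G.neighborFinset u).erase v) (g u) fun w _ => g2 u w
  have h8 := h7 α
  have h9 := hcol u v
  simp only [mem_sdiff, mem_filter, mem_univ, true_and] at h5
  rw [← G.card_neighborFinset_eq_degree]
  have hα : α = 1 ∨ α = 2 ∨ α = 3 ∨ α = 4 ∨ (α ≠ 1 ∧ α ≠ 2 ∧ α ≠ 3 ∧ α ≠ 4) := by omega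
  by_cases a2 : G.Adj u v
  · have := card_erase_add_one ((G.mem_neighborFinset u v).2 a2)
    simp only [e, a2, true_and]
    by_cases a1 : u ∈ K <;> simp only [a1, h9 a2, ne_eq, not_true_eq_false, not_false_eq_true,
        and_self, and_false, if_true, if_false] at h5 ⊢ <;>
      rcases hα with rfl | rfl | rfl | rfl | hα <;> split_ifs <;> omega
  · rw [erase_eq_of_notMem (by simpa using a2)] at *
    simp only [a2, false_and, if_false]
    rcases hα with rfl | rfl | rfl | rfl | hα <;> omega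

lemma other_nbr (hG : G.Connected) (hn : Fintype.card V ≠ 2) {v u : V}
    (h : G.neighborFinset v = {u}) : ((G.neighborFinset u).erase v).Nonempty := by
  by_contra h'
  rw [not_nonempty_iff_eq_empty] at h'
  have huv : G.Adj v u := (G.mem_neighborFinset v u).1 (h ▸ mem_singleton_self u)
  have key : ∀ {a b : V} (_ : G.Walk a b), a ∈ ({v, u} : Finset V) → b ∈ ({v, u} : Finset V) := by
    intro a b p
    induction p with
    | nil => exact id
    | @cons a c b hac p ih =>
      intro ha
      apply ih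
      rw [mem_insert, mem_singleton] at ha ⊢
      rcases ha with rfl | rfl
      · exact Or.inr (mem_singleton.1 (h ▸ (G.mem_neighborFinset _ _).2 hac))
      · by_contra hc
        push Not at hc
        exact notMem_empty c (h' ▸ mem_erase.2 ⟨hc.1, (G.mem_neighborFinset _ _).2 hac⟩)
  have : (univ : Finset V) = {v, u} := (eq_univ_of_forall fun w =>
    (hG.preconnected v w).elim fun p => key p (mem_insert_self _ _)).symm
  exact hn (by rw [← card_univ, this, card_pair huv.ne])

theorem fine (hG : G.Connected) {col : V → Bool} (hcol : ∀ u w, G.Adj u w → col u ≠ col w)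
    (hn : Fintype.card V ≠ 2) : Fine G := by
  obtain ⟨r⟩ := hG.nonempty
  obtain ⟨v, -, hr⟩ := exists_noncut G hG r
  set Y := univ.filter fun u => col u ≠ col v with hY
  set N := G.neighborFinset v with hN
  have hd : G.degree v = N.card := (G.card_neighborFinset_eq_degree v).symm
  have hNY : N ⊆ Y := fun u hu => by
    simpa [hY] using (hcol v u ((G.mem_neighborFinset v u).1 hu)).symm
  rcases Nat.even_or_odd Y.card with he | ho
  · obtain ⟨g, hg⟩ := exists_good G hcol hr (Y \ ∅) (by simp [hY]) (by simpa using he)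
    obtain ⟨H, h1, h2⟩ := exists_subset_card_eq (s := N) (n := N.card / 2) (by omega)
    have := card_sdiff_of_subset h1
    refine build G hcol (empty_subset _) h1 hg (by simp) (by simp) (by rw [sdiff_empty]; omega)
      (by rw [sdiff_empty, ← hN]; omega) fun u hu => ?_
    have h3 := (hg.2.2 u ((G.mem_neighborFinset v u).1 hu).ne').2.2.2.2
    have h4 := (cnt_four ((G.neighborFinset u).erase v) (g u) fun w _ => hg.2.1 u w).2.1
    rw [if_pos (by simpa using hNY hu)] at h3
    simp only [card_empty, notMem_empty, if_false]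
    omega
  have hpos : 1 ≤ N.card := by
    obtain ⟨y, hy⟩ : Y.Nonempty := card_pos.1 ho.pos
    obtain ⟨p⟩ := hG.preconnected v y
    cases p with
    | nil => simp [hY] at hy
    | cons h _ => exact card_pos.2 ⟨_, (G.mem_neighborFinset _ _).2 h⟩
  obtain ⟨o, o1, o2, o3, o4⟩ : ∃ o, o % 2 = 1 ∧ N.card / 2 ≤ o ∧ o ≤ N.card / 2 + 1 ∧ o ≤ N.card := by
    by_cases h : N.card / 2 % 2 = 1
    · exact ⟨_, h, by omega, by omega, by omega⟩
    · exact ⟨N.card / 2 + 1, by omega, by omega, by omega, by omega⟩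
  obtain ⟨K, hK, hKo⟩ := exists_subset_card_eq (s := N) o4
  obtain ⟨g, hg⟩ := exists_good G hcol hr (Y \ K) (by simp [hY]) (by
    rw [card_sdiff_of_subset (hK.trans hNY), hKo]
    have := card_le_card (hK.trans hNY)
    rw [Nat.odd_iff] at ho
    rw [Nat.even_iff]
    omega)
  have hNK := card_sdiff_of_subset hK
  have m3 : ∀ H ⊆ N, (H \ K).card ≤ (G.degree v + 1) / 2 := fun H hH =>
    (card_le_card (sdiff_subset_sdiff hH (Subset.refl K))).trans (by omega)
  have m4 : ∀ H, ((N \ K) \ H).card ≤ (G.degree v + 1) / 2 := fun H =>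
    (card_le_card sdiff_subset).trans (by omega)
  by_cases h1 : N.card = 1
  · refine build G hcol hK (empty_subset _) hg (by simp) (by rw [sdiff_empty]; omega)
      (m3 _ (empty_subset _)) (m4 _) fun u hu => ?_
    obtain ⟨u', hu'⟩ := card_eq_one.1 h1
    obtain rfl : u = u' := mem_singleton.1 (hu' ▸ hu)
    obtain ⟨w, hw⟩ := other_nbr G hG hn hu'
    have := (hg.2.1 u w).1.trans (single_le_sum (f := g u) (fun _ _ => Nat.zero_le _) hw)
    simp only [erase_empty, card_empty]
    split_ifs <;> omega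
  let a : (V → V → ℕ) → V → ℤ := fun g u => (((K.card + (if u ∈ K then 1 else 2) +
    ∑ w ∈ (G.neighborFinset u).erase v, g u w : ℕ) : ℤ) - 2 * G.degree v) / 2
  have diff : ∀ u ∈ N, (u ∈ K → a g u = a (flip13 g) u) ∧ (u ∉ K → a g u ≠ a (flip13 g) u) := by
    intro u hu
    obtain ⟨h2, h3, -, -, h4⟩ := hg.2.2 u ((G.mem_neighborFinset v u).1 hu).ne'
    have h5 := (cnt_four ((G.neighborFinset u).erase v) (g u) fun w _ => hg.2.1 u w).2.1
    have h6 := (cnt_four ((G.neighborFinset u).erase v) (flip13 g u)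
      fun w _ => hg.flip.2.1 u w).2.1
    obtain ⟨e1, e2, e3, e4⟩ := cnt_flip ((G.neighborFinset u).erase v) g u
    rw [e1, e2, e3, e4] at h6
    simp only [a]
    rw [h5, h6]
    refine ⟨fun h => ?_, fun h => ?_⟩
    · rw [if_neg (by simp [h])] at h4
      omega
    · rw [if_pos (mem_sdiff.2 ⟨hNY hu, h⟩)] at h4
      omega
  obtain ⟨H, hH, m1, m2, h⟩ := select N K (a g) (a (flip13 g)) (by omega) hK
    (Nat.odd_iff.2 (by omega)) (by omega) (fun u hu => (diff u (hK hu)).1 hu)
    fun u hu => (diff u (mem_sdiff.1 hu).1).2 (mem_sdiff.1 hu).2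
  rw [← hd] at m1 m2
  rcases h with h | h
  · refine build G hcol hK hH hg m1 m2 (m3 H hH) (m4 H) fun u hu h' => h u hu ?_
    simp only [a]
    omega
  · refine build G hcol hK hH hg.flip m1 m2 (m3 H hH) (m4 H) fun u hu h' => h u hu ?_
    simp only [a]
    omega

end Pool.Agent.MP_d1f1f3_co.H30
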