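import Pool.Agent.MP_d1f1f3_co.H30.Tools

/-!
Choice of the high edges at the special vertex.
-/

namespace Pool.Agent.MP_d1f1f3_co.H30

open Finset

variable {V : Type*} [DecidableEq V]

omit [DecidableEq V] in
lemma three_le (N : Finset V) (a : V → ℤ) {i j k : ℤ} (h1 : i ≠ j) (h2 : i ≠ k) (h3 : j ≠ k) :
    (N.filter fun u => a u = i).card + (N.filter fun u => a u = j).card +
      (N.filter fun u => a u = k).card ≤ N.card := by
  simp only [card_filter, ← sum_add_distrib]
  rw [card_eq_sum_ones]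
  refine sum_le_sum fun u _ => ?_
  split_ifs <;> omega

lemma free (N : Finset V) (a : V → ℤ) (hN : 2 ≤ N.card) :
    ∃ H ⊆ N, ∀ u ∈ N, ((H.erase u).card : ℤ) ≠ a u := by
  by_contra hc
  have P : ∀ (t : ℕ) (i j : ℤ), i = t → j = t - 1 → t < (N.filter fun u => a u = i).card ∨
      N.card < (N.filter fun u => a u = j).card + t := by
    rintro t i j rfl rfl
    by_contra h
    push Not at h
    obtain ⟨H, h1, -, -, h2⟩ := pick (a := a) ∅ (empty_subset N) (by simp)
      (by simpa using h.1) h.2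
    exact hc ⟨H, h1, h2⟩
  obtain ⟨m, hm⟩ : ∃ m : ℕ, N.card = 2 * m + 2 ∨ N.card = 2 * m + 3 := ⟨N.card / 2 - 1, by omega⟩
  have p0 := P m m (m - 1) rfl rfl
  have p1 := P (m + 1) (m + 1) m (by simp) (by simp)
  have p2 := P (m + 2) (m + 2) (m + 1) (by simp) (by push_cast; ring)
  have p3 := P (m + 3) (m + 3) (m + 2) (by simp) (by push_cast; ring)
  have q0 := three_le N a (i := m - 1) (j := m) (k := m + 1) (by omega) (by omega) (by omega)
  have q1 := three_le N a (i := m) (j := m + 1) (k := m + 2) (by omega) (by omega) (by omega)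
  have q2 := three_le N a (i := m + 1) (j := m + 2) (k := m + 3) (by omega) (by omega) (by omega)
  omega

lemma tight_aux (N K : Finset V) (a : V → ℤ) (m : ℕ) (hN : N.card = 2 * m + 4) (hK : K ⊆ N)
    (hc : K.card = m + 3) (h : m + 3 ≤ (N.filter fun u => a u = m + 2).card) :
    (∃ H ⊆ N, H.card = m + 1 ∧ (K ∩ H).Nonempty ∧ ∀ u ∈ N, ((H.erase u).card : ℤ) ≠ a u) ∨
      ∀ u ∈ K, ∀ w ∈ N \ K, a u + a w = 2 * m + 3 := by
  have q := three_le N a (i := m) (j := m + 1) (k := m + 2) (by omega) (by omega) (by omega)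
  have e1 : ((m + 1 : ℕ) : ℤ) - 1 = m := by simp
  have e2 : ((m + 1 : ℕ) : ℤ) = m + 1 := by simp
  by_cases h1 : (N.filter fun u => a u = m + 1).card ≤ m
  · have h2 : (K ∩ N.filter fun u => a u = m + 2).Nonempty := by
      rw [← card_pos]
      have := card_union_add_card_inter K (N.filter fun u => a u = m + 2)
      have := card_le_card (union_subset hK (filter_subset (fun u => a u = m + 2) N))
      omega
    obtain ⟨k, hk⟩ := h2
    rw [mem_inter, mem_filter] at hk
    obtain ⟨H, h3, h4, h5, h6⟩ := pick (a := a) (t := m + 1) {k} (by simpa using hk.2.1)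
      (by simp only [mem_singleton, forall_eq]; omega)
      ((card_union_le _ _).trans (by rw [e2, card_singleton]; omega)) (by rw [e1]; omega)
    exact Or.inl ⟨H, h3, h5, ⟨k, mem_inter.2 ⟨hk.1, h4 (mem_singleton_self k)⟩⟩, h6⟩
  by_cases h2 : ∃ k ∈ K, a k = m + 1
  · obtain ⟨k, hk, hk'⟩ := h2
    obtain ⟨H, h3, h4, h5, h6⟩ := pick (a := a) (t := m + 1) {k} (by simpa using hK hk)
      (by simp only [mem_singleton, forall_eq]; omega)
      (by rw [union_eq_right.2 (by simp [hK hk, hk']), e2]; omega) (by rw [e1]; omega)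
    exact Or.inl ⟨H, h3, h5, ⟨k, mem_inter.2 ⟨hk, h4 (mem_singleton_self k)⟩⟩, h6⟩
  push Not at h2
  have h3 : (N.filter fun u => a u = m + 1) = N \ K := eq_of_subset_of_card_le (fun u hu => by
    rw [mem_filter] at hu
    exact mem_sdiff.2 ⟨hu.1, fun h => h2 u h hu.2⟩) (by rw [card_sdiff_of_subset hK]; omega)
  have h4 : (N.filter fun u => a u = m + 2) = K := eq_of_subset_of_card_le (fun u hu => by
    by_contra hu'
    have : u ∈ N \ K := mem_sdiff.2 ⟨(mem_filter.1 hu).1, hu'⟩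
    rw [← h3, mem_filter] at this
    have := (mem_filter.1 hu).2
    omega) (by omega)
  refine Or.inr fun u hu w hw => ?_
  rw [← h4, mem_filter] at hu
  rw [← h3, mem_filter] at hw
  omega

lemma tight (N K : Finset V) (a : V → ℤ) (m : ℕ) (hN : N.card = 2 * m + 4) (hK : K ⊆ N)
    (hc : K.card = m + 3) :
    (∃ H ⊆ N, (K ∩ H).card ≤ m + 2 ∧ (K \ H).card ≤ m + 2 ∧
      ∀ u ∈ N, ((H.erase u).card : ℤ) ≠ a u) ∨ ∀ u ∈ K, ∀ w ∈ N \ K, a u + a w = 2 * m + 3 := by
  by_cases h1 : m + 3 ≤ (N.filter fun u => a u = m + 2).card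
  · refine (tight_aux N K a m hN hK hc h1).imp ?_ id
    rintro ⟨H, h2, h3, h4, h5⟩
    have := card_le_card (inter_subset_right (s₁ := K) (s₂ := H))
    have := card_sdiff_add_card_inter K H
    have := card_pos.2 h4
    exact ⟨H, h2, by omega, by omega, h5⟩
  by_cases h2 : m + 3 ≤ (N.filter fun u => a u = m + 1).card
  · refine (tight_aux N K (fun u => 2 * m + 3 - a u) m hN hK hc ?_).imp ?_ ?_
    · rwa [filter_congr (q := fun u => a u = m + 1) fun u _ => by omega]
    · rintro ⟨H, h2, h3, h4, h5⟩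
      have h6 : K ∩ (N \ H) = K \ H := by
        ext u; simp only [mem_inter, mem_sdiff]; exact ⟨fun h => ⟨h.1, h.2.2⟩, fun h => ⟨h.1, hK h.1, h.2⟩⟩
      have h7 : K \ (N \ H) = K ∩ H := by
        ext u; simp only [mem_inter, mem_sdiff]
        exact ⟨fun h => ⟨h.1, by by_contra h'; exact h.2 ⟨hK h.1, h'⟩⟩, fun h => ⟨h.1, fun h' => h'.2 h.2⟩⟩
      have := card_le_card (inter_subset_right (s₁ := K) (s₂ := H))
      have := card_sdiff_add_card_inter K H
      have := card_pos.2 h4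
      refine ⟨N \ H, sdiff_subset, by rw [h6]; omega, by rw [h7]; omega, fun u hu => ?_⟩
      have h8 := h5 u hu
      have h9 := card_sdiff_of_subset h2
      by_cases huH : u ∈ H
      · rw [erase_eq_of_notMem (by simp [huH])]
        have := card_erase_add_one huH
        omega
      · rw [erase_eq_of_notMem huH] at h8
        have := card_erase_add_one (mem_sdiff.2 ⟨hu, huH⟩)
        omega
    · intro h u hu w hw
      have := h u hu w hw
      omega
  obtain ⟨H, h3, -, h5, h6⟩ := pick (a := a) (t := m + 2) ∅ (empty_subset N) (by simp)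
    (by simp only [empty_union]; push_cast; omega)
    (by rw [show ((m + 2 : ℕ) : ℤ) - 1 = m + 1 by push_cast; ring]; omega)
  have := card_le_card (inter_subset_right (s₁ := K) (s₂ := H))
  have := card_le_card (sdiff_subset_sdiff hK (Subset.refl H))
  have := card_sdiff_of_subset h3
  exact Or.inl ⟨H, h3, by omega, by omega, h6⟩

/-- Selection for two functions that agree on `K` and differ everywhere off `K`. -/
lemma select (N K : Finset V) (a a' : V → ℤ) (hN : 2 ≤ N.card) (hK : K ⊆ N) (ho : Odd K.card)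
    (h1 : K.card ≤ N.card / 2 + 1) (h2 : ∀ u ∈ K, a u = a' u) (h3 : ∀ u ∈ N \ K, a u ≠ a' u) :
    ∃ H ⊆ N, (K ∩ H).card ≤ (N.card + 1) / 2 ∧ (K \ H).card ≤ (N.card + 1) / 2 ∧
      ((∀ u ∈ N, ((H.erase u).card : ℤ) ≠ a u) ∨ ∀ u ∈ N, ((H.erase u).card : ℤ) ≠ a' u) := by
  by_cases h : K.card ≤ (N.card + 1) / 2
  · obtain ⟨H, h4, h5⟩ := free N a hN
    exact ⟨H, h4, (card_le_card inter_subset_left).trans h, (card_le_card sdiff_subset).trans h,
      Or.inl h5⟩
  obtain ⟨k, hk⟩ := ho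
  obtain ⟨m, hm, hm'⟩ : ∃ m, N.card = 2 * m + 4 ∧ K.card = m + 3 := ⟨N.card / 2 - 2, by omega⟩
  rw [show (N.card + 1) / 2 = m + 2 by omega]
  rcases tight N K a m hm hK hm' with ⟨H, h4, h5, h6, h7⟩ | h4
  · exact ⟨H, h4, h5, h6, Or.inl h7⟩
  rcases tight N K a' m hm hK hm' with ⟨H, h4, h5, h6, h7⟩ | h5
  · exact ⟨H, h4, h5, h6, Or.inr h7⟩
  obtain ⟨u, hu⟩ : K.Nonempty := card_pos.1 (by omega)
  obtain ⟨w, hw⟩ : (N \ K).Nonempty := card_pos.1 (by rw [card_sdiff_of_subset hK]; omega)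
  have := h4 u hu w hw
  have := h5 u hu w hw
  have := h2 u hu
  have := h3 w hw
  omega

end Pool.Agent.MP_d1f1f3_co.H30
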