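import Mathlib

/-!
Balanced two-colourings of bipartite multigraphs, parity subgraphs, and a selection lemma.
-/

namespace Pool.Agent.MP_d1f1f3_co.H30

open Finset

lemma same_aux {ι C : Type*} [DecidableEq ι] [DecidableEq C] {E₀ : Finset ι} {e e' : ι}
    (m0 : e ∉ E₀) (m2 : e' ∉ insert e E₀) {s s' : ι → ℤ} (hs0 : ∀ g ∈ E₀, s' g = s g)
    (v1 : s' e = 1) (v2 : s' e' = -1) (f : ι → C) (hf : f e' = f e) (c : C)
    (h : |∑ g ∈ E₀ with f g = c, s g| ≤ 1) :
    |∑ g ∈ insert e' (insert e E₀) with f g = c, s' g| ≤ 1 := by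
  rw [sum_filter, sum_congr rfl fun g hg => by rw [← hs0 g hg]] at h
  rw [sum_filter, sum_insert m2, sum_insert m0, v1, v2, hf]
  convert h using 2
  split_ifs <;> ring

lemma lone_aux {ι C : Type*} [DecidableEq ι] [DecidableEq C] {E₀ : Finset ι} {e e' : ι}
    (m0 : e ∉ E₀) (m2 : e' ∉ insert e E₀) {s s' : ι → ℤ} (hs0 : ∀ g ∈ E₀, s' g = s g)
    (v1 : s' e = 1) (v2 : s' e' = -1) (f : ι → C) (hf : ∀ g ∈ E₀, f g ≠ f e ∧ f g ≠ f e') (c : C)
    (h : |∑ g ∈ E₀ with f g = c, s g| ≤ 1) :
    |∑ g ∈ insert e' (insert e E₀) with f g = c, s' g| ≤ 1 := by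
  rw [sum_filter, sum_congr rfl fun g hg => by rw [← hs0 g hg]] at h
  rw [sum_filter, sum_insert m2, sum_insert m0, v1, v2]
  by_cases hc : f e = c ∨ f e' = c
  · rw [sum_eq_zero fun g hg => if_neg fun h' => by
      rcases hc with hc | hc
      · exact (hf g hg).1 (h'.trans hc.symm)
      · exact (hf g hg).2 (h'.trans hc.symm)]
    split_ifs <;> norm_num
  · push Not at hc
    simpa [hc.1, hc.2] using h

lemma key_aux {ι C : Type*} [DecidableEq ι] [DecidableEq C] {E : Finset ι} (f : ι → C)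
    (hf : ∀ e ∈ E, ∀ e' ∈ E, e ≠ e' → f e' ≠ f e) (c : C) :
    |∑ g ∈ E with f g = c, (1 : ℤ)| ≤ 1 := by
  have : (E.filter fun g => f g = c).card ≤ 1 := card_le_one.2 fun g hg g' hg' => by
    by_contra hne
    rw [mem_filter] at hg hg'
    exact hf g hg.1 g' hg'.1 hne (hg'.2.trans hg.2.symm)
  simp only [sum_const, nsmul_eq_mul, mul_one, Nat.abs_cast]
  exact_mod_cast this

lemma balanced_aux {ι A B : Type*} [DecidableEq ι] [DecidableEq A] [DecidableEq B] (E : Finset ι) :
    ∀ (L : ι → A) (R : ι → B), ∃ s : ι → ℤ, (∀ e, s e = 1 ∨ s e = -1) ∧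
      (∀ a, |∑ e ∈ E with L e = a, s e| ≤ 1) ∧ ∀ b, |∑ e ∈ E with R e = b, s e| ≤ 1 := by
  induction E using Finset.strongInduction with
  | H E ih =>
  intro L R
  by_cases h1 : ∃ e ∈ E, ∃ e' ∈ E, ∃ e'' ∈ E, e ≠ e' ∧ e ≠ e'' ∧ e' ≠ e'' ∧ L e' = L e ∧ R e'' = R e
  · obtain ⟨e, he, e', he', e'', he'', n1, n2, n3, hL, hR⟩ := h1
    set E₀ := ((E.erase e').erase e'').erase e with hE₀
    have m0 : e ∉ E₀ := notMem_erase _ _
    have m1 : e'' ∉ insert e E₀ := by simp [hE₀, n2.symm]
    have m2 : e' ∉ insert e'' (insert e E₀) := by simp [hE₀, n1.symm, n3]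
    have hE : E = insert e' (insert e'' (insert e E₀)) := by
      rw [hE₀, insert_erase (by simp [he, n1, n2]), insert_erase (by simp [he'', n3.symm]),
        insert_erase he']
    obtain ⟨s, hs, h2, h3⟩ := ih (insert e E₀) (by
      rw [hE]; exact Finset.ssubset_of_subset_of_ssubset (subset_insert _ _) (ssubset_insert m2))
      (Function.update L e (L e'')) (Function.update R e (R e'))
    let s' : ι → ℤ := fun g => if g = e then -s e else if g = e' ∨ g = e'' then s e else s g
    have hs0 : ∀ g ∈ E₀, s' g = s g ∧ g ≠ e := fun g hg => by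
      have a1 : g ≠ e := fun h => m0 (h ▸ hg)
      have a2 : g ≠ e'' := fun h => m1 (h ▸ mem_insert_of_mem hg)
      have a3 : g ≠ e' := fun h => m2 (h ▸ mem_insert_of_mem (mem_insert_of_mem hg))
      simp [s', a1, a2, a3]
    have v1 : s' e = -s e := by simp [s']
    have v2 : s' e' = s e := by simp [s', n1.symm]
    have v3 : s' e'' = s e := by simp [s', n2.symm]
    refine ⟨s', fun g => ?_, fun a => ?_, fun b => ?_⟩
    · simp only [s']
      split_ifs
      · rcases hs e with h | h <;> simp [h]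
      · exact hs e
      · exact hs g
    · have := h2 a
      rw [sum_filter, sum_insert m0, sum_congr rfl fun g hg => by
        rw [Function.update_of_ne (hs0 g hg).2, ← (hs0 g hg).1]] at this
      rw [hE, sum_filter, sum_insert m2, sum_insert m1, sum_insert m0, v1, v2, v3, hL]
      convert this using 2
      simp only [Function.update_self]
      split_ifs <;> ring
    · have := h3 b
      rw [sum_filter, sum_insert m0, sum_congr rfl fun g hg => by
        rw [Function.update_of_ne (hs0 g hg).2, ← (hs0 g hg).1]] at this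
      rw [hE, sum_filter, sum_insert m2, sum_insert m1, sum_insert m0, v1, v2, v3, hR]
      convert this using 2
      simp only [Function.update_self]
      split_ifs <;> ring
  push Not at h1
  by_cases h2 : ∃ e ∈ E, ∃ e' ∈ E, e ≠ e' ∧ (L e' = L e ∨ R e' = R e)
  · obtain ⟨e, he, e', he', n1, hLR⟩ := h2
    set E₀ := (E.erase e').erase e with hE₀
    have m0 : e ∉ E₀ := notMem_erase _ _
    have m2 : e' ∉ insert e E₀ := by simp [hE₀, n1.symm]
    have hE : E = insert e' (insert e E₀) := by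
      rw [hE₀, insert_erase (by simp [he, n1]), insert_erase he']
    obtain ⟨s, hs, h2, h3⟩ := ih E₀ (by
      rw [hE]; exact Finset.ssubset_of_subset_of_ssubset (subset_insert _ _) (ssubset_insert m2)) L R
    let s' : ι → ℤ := fun g => if g = e then 1 else if g = e' then -1 else s g
    have hs0 : ∀ g ∈ E₀, s' g = s g ∧ g ≠ e ∧ g ≠ e' ∧ g ∈ E := fun g hg => by
      have a1 : g ≠ e := fun h => m0 (h ▸ hg)
      have a3 : g ≠ e' := fun h => m2 (h ▸ mem_insert_of_mem hg)
      simp [s', a1, a3, mem_of_mem_erase (mem_of_mem_erase hg)]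
    have v1 : s' e = 1 := by simp [s']
    have v2 : s' e' = -1 := by simp [s', n1.symm]
    have hs' : ∀ g, s' g = 1 ∨ s' g = -1 := fun g => by
      simp only [s']
      split_ifs
      · simp
      · simp
      · exact hs g
    rcases hLR with h | h
    · refine ⟨s', hs', fun a => hE ▸ same_aux m0 m2 (fun g hg => (hs0 g hg).1) v1 v2 L h a (h2 a),
        fun b => hE ▸ lone_aux m0 m2 (fun g hg => (hs0 g hg).1) v1 v2 R (fun g hg => ?_) b (h3 b)⟩
      obtain ⟨-, a1, a2, a3⟩ := hs0 g hg
      exact ⟨h1 e he e' he' g a3 n1 a1.symm a2.symm h,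
        h1 e' he' e he g a3 n1.symm a2.symm a1.symm h.symm⟩
    · refine ⟨s', hs', fun a => hE ▸ lone_aux m0 m2 (fun g hg => (hs0 g hg).1) v1 v2 L (fun g hg => ?_) a (h2 a),
        fun b => hE ▸ same_aux m0 m2 (fun g hg => (hs0 g hg).1) v1 v2 R h b (h3 b)⟩
      obtain ⟨-, a1, a2, a3⟩ := hs0 g hg
      exact ⟨fun h' => h1 e he g a3 e' he' a1.symm n1 a2 h' h,
        fun h' => h1 e' he' g a3 e he a2.symm n1.symm a1 h' h.symm⟩
  · push Not at h2
    exact ⟨fun _ => 1, fun _ => Or.inl rfl, key_aux L fun e he e' he' h => (h2 e he e' he' h).1,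
      key_aux R fun e he e' he' h => (h2 e he e' he' h).2⟩

variable {V : Type*} [Fintype V] [DecidableEq V] (G : SimpleGraph V) [DecidableRel G.Adj]

/-- Balanced signs on a symmetric set `P` of edges of a bipartite graph. -/
lemma balanced {col : V → Bool} (hcol : ∀ u w, G.Adj u w → col u ≠ col w) (P : V → V → Prop)
    [DecidableRel P] (hP : ∀ u w, P u w → P w u) :
    ∃ s : V → V → ℤ, (∀ u w, s u w = s w u) ∧ (∀ u w, s u w = 1 ∨ s u w = -1) ∧
      ∀ u, |∑ w ∈ G.neighborFinset u with P u w, s u w| ≤ 1 := by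
  obtain ⟨s, hs, h1, h2⟩ := balanced_aux
    (univ.filter fun e : V × V => G.Adj e.1 e.2 ∧ P e.1 e.2 ∧ col e.1 = true) Prod.fst Prod.snd
  refine ⟨fun u w => if col u = col w then 1 else if col u = true then s (u, w) else s (w, u),
    fun u w => ?_, fun u w => ?_, fun u => ?_⟩
  · rcases hu : col u <;> rcases hw : col w <;> simp [hu, hw]
  · dsimp only
    split_ifs
    · simp
    · exact hs _
    · exact hs _
  · rcases hu : col u
    · convert h2 u using 2
      refine sum_bij (fun w _ => (w, u)) ?_ ?_ ?_ ?_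
      · intro w hw
        rw [mem_filter, SimpleGraph.mem_neighborFinset] at hw
        have := hcol u w hw.1
        simp only [mem_filter, mem_univ, true_and, and_true]
        exact ⟨hw.1.symm, hP _ _ hw.2, by simpa [hu] using this⟩
      · intro a _ b _ h; exact (Prod.ext_iff.1 h).1
      · rintro ⟨a, b⟩ h
        simp only [mem_filter, mem_univ, true_and] at h
        obtain ⟨⟨h3, h4, -⟩, rfl⟩ := h
        exact ⟨a, by simp [h3.symm, hP _ _ h4], rfl⟩
      · intro w hw
        rw [mem_filter, SimpleGraph.mem_neighborFinset] at hw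
        have := hcol u w hw.1
        simp [hu] at this ⊢
        simp [this]
    · convert h1 u using 2
      refine sum_bij (fun w _ => (u, w)) ?_ ?_ ?_ ?_
      · intro w hw
        rw [mem_filter, SimpleGraph.mem_neighborFinset] at hw
        simp only [mem_filter, mem_univ, true_and, and_true]
        exact ⟨hw.1, hw.2, hu⟩
      · intro a _ b _ h; exact (Prod.ext_iff.1 h).2
      · rintro ⟨a, b⟩ h
        simp only [mem_filter, mem_univ, true_and] at h
        obtain ⟨⟨h3, h4, -⟩, rfl⟩ := h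
        exact ⟨b, by simp [h3, h4], rfl⟩
      · intro w hw
        rw [mem_filter, SimpleGraph.mem_neighborFinset] at hw
        have := hcol u w hw.1
        simp [hu] at this ⊢
        simp [this]

/-- Parity functions supported on walks avoiding a set `Z`. -/
lemma walk_parity (Z : Set V) {a b : V} (p : G.Walk a b) (hp : ∀ w ∈ p.support, w ∉ Z) :
    ∃ x : V → V → ZMod 2, (∀ u w, x u w = x w u) ∧ (∀ u w, u ∈ Z → x u w = 0) ∧
      ∀ u, ∑ w ∈ G.neighborFinset u, x u w = (if u = a then 1 else 0) + if u = b then 1 else 0 := by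
  induction p with
  | nil => exact ⟨0, fun _ _ => rfl, fun _ _ _ => rfl, fun u => by simp [CharTwo.add_self_eq_zero]⟩
  | @cons a c b h p ih =>
    obtain ⟨x, h1, h2, h3⟩ := ih fun w hw => hp w (by simp [hw])
    have ha : a ∉ Z := hp a (by simp)
    have hc : c ∉ Z := hp c (by simp)
    refine ⟨fun u w => x u w + if (u = a ∧ w = c) ∨ (u = c ∧ w = a) then 1 else 0,
      fun u w => ?_, fun u w hu => ?_, fun u => ?_⟩
    · dsimp only
      rw [h1 u w]; congr 1; exact if_congr (by tauto) rfl rfl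
    · dsimp only
      rw [h2 u w hu, if_neg, add_zero]
      rintro (⟨rfl, -⟩ | ⟨rfl, -⟩)
      · exact ha hu
      · exact hc hu
    · rw [sum_add_distrib, h3]
      have hne := h.ne
      have : ∑ w ∈ G.neighborFinset u, (if (u = a ∧ w = c) ∨ (u = c ∧ w = a) then (1 : ZMod 2) else 0)
          = (if u = a then 1 else 0) + if u = c then 1 else 0 := by
        by_cases h4 : u = a
        · subst h4; simp [hne, h]
        · by_cases h5 : u = c
          · subst h5; simp [h4, h.symm]
          · simp [h4, h5]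
      rw [this]
      have := CharTwo.add_self_eq_zero (if u = c then (1 : ZMod 2) else 0)
      linear_combination this

lemma parity_join (Z : Set V) (r : V) (hr : ∀ u, u ∉ Z → ∃ p : G.Walk u r, ∀ w ∈ p.support, w ∉ Z)
    (T : Finset V) (hT : ∀ u ∈ T, u ∉ Z) (he : Even T.card) :
    ∃ x : V → V → ZMod 2, (∀ u w, x u w = x w u) ∧ (∀ u w, u ∈ Z → x u w = 0) ∧
      ∀ u, ∑ w ∈ G.neighborFinset u, x u w = if u ∈ T then 1 else 0 := by
  have h : ∀ t : T, _ := fun t =>
    let ⟨p, hp⟩ := hr t (hT t t.2)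
    walk_parity G Z p hp
  choose x h1 h2 h3 using h
  refine ⟨fun u w => ∑ t, x t u w, fun u w => sum_congr rfl fun t _ => h1 t u w,
    fun u w hu => sum_eq_zero fun t _ => h2 t u w hu, fun u => ?_⟩
  rw [sum_comm, sum_congr rfl fun t _ => h3 t u, sum_add_distrib, sum_const, card_univ,
    Fintype.card_coe, nsmul_eq_mul, (ZMod.natCast_eq_zero_iff_even).2 he, zero_mul, add_zero]
  by_cases hu : u ∈ T
  · rw [if_pos hu, sum_eq_single ⟨u, hu⟩]
    · simp
    · intro t _ ht
      exact if_neg fun h => ht (Subtype.ext h.symm)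
    · simp
  · rw [if_neg hu]
    exact sum_eq_zero fun t _ => if_neg fun (h : u = t) => hu (h ▸ t.2)

omit [DecidableEq V] [DecidableRel G.Adj] in
/-- A vertex whose removal keeps the graph connected. -/
lemma exists_noncut (hG : G.Connected) (r : V) :
    ∃ v, (∀ u, u ≠ r → v ≠ r) ∧ ∀ u, u ≠ v → ∃ p : G.Walk u r, ∀ w ∈ p.support, w ≠ v := by
  classical
  obtain ⟨v, -, hv⟩ := exists_max_image univ (fun u => G.dist u r) ⟨r, mem_univ r⟩
  refine ⟨v, fun u hu hvr => ?_, fun u hu => ?_⟩
  · have := hv u (mem_univ u)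
    rw [hvr, SimpleGraph.dist_self] at this
    exact hu ((hG.dist_eq_zero_iff).1 (by omega))
  · obtain ⟨p, hp⟩ := hG.exists_walk_length_eq_dist u r
    refine ⟨p, fun w hw hwv => ?_⟩
    subst hwv
    have h1 := congrArg SimpleGraph.Walk.length (p.take_spec hw)
    rw [SimpleGraph.Walk.length_append] at h1
    have h2 := SimpleGraph.dist_le (p.dropUntil w hw)
    have h3 := hv u (mem_univ u)
    have h4 : (p.takeUntil w hw).length = 0 := by omega
    exact hu (SimpleGraph.Walk.eq_of_length_eq_zero h4)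

omit [Fintype V] in
/-- The level `t` is available. -/
lemma pick {N : Finset V} {a : V → ℤ} {t : ℕ} (K : Finset V) (hK : K ⊆ N)
    (hK' : ∀ u ∈ K, a u ≠ (t : ℤ) - 1) (h1 : (K ∪ N.filter fun u => a u = t).card ≤ t)
    (h2 : (N.filter fun u => a u = (t : ℤ) - 1).card + t ≤ N.card) :
    ∃ H ⊆ N, K ⊆ H ∧ H.card = t ∧ ∀ u ∈ N, ((H.erase u).card : ℤ) ≠ a u := by
  obtain ⟨H, h3, h4, h5⟩ := exists_subsuperset_card_eq (s := K ∪ N.filter fun u => a u = t)
    (t := N \ N.filter fun u => a u = (t : ℤ) - 1) (n := t) (by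
      intro u hu
      rw [mem_union, mem_filter] at hu
      rw [mem_sdiff, mem_filter]
      rcases hu with hu | hu
      · exact ⟨hK hu, fun h => hK' u hu h.2⟩
      · exact ⟨hu.1, fun h => by omega⟩) h1 (by
      rw [card_sdiff_of_subset (filter_subset _ _)]; omega)
  refine ⟨H, h4.trans sdiff_subset, subset_union_left.trans h3, h5, fun u hu he => ?_⟩
  by_cases huH : u ∈ H
  · have h6 := card_erase_add_one huH
    exact (mem_sdiff.1 (h4 huH)).2 (mem_filter.2 ⟨hu, by omega⟩)
  · rw [erase_eq_of_notMem huH, h5] at he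
    exact huH (h3 (mem_union_right _ (mem_filter.2 ⟨hu, he.symm⟩)))

end Pool.Agent.MP_d1f1f3_co.H30
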